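import Pool.Agent.Helper57_DGA.Final

/-!
# The weak dual greedy algorithm can diverge in a uniformly smooth space of power type 2

We disprove the conjecture that the WDGA(`t`) converges for every dictionary and every element
of every uniformly smooth Banach space whose modulus of smoothness has a power type `q ∈ (1, 2]`.

The counterexample is an equivalent (strictly convex) renorming of `ℓ²` whose modulus of
smoothness is at most `γ u²`; the dictionary consists of norm-one vectors; and one run of the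
algorithm is admissible for all `t ∈ (0, 1]` at once (in particular for `t = 1`).
-/

namespace Pool.Agent.Results.MP_ecafc5_an.WDGADiverges

open Filter Topology

section Definitions

/-- The modulus of smoothness
`ρ(u) = sup_{‖x‖ = ‖y‖ = 1} ((‖x + u y‖ + ‖x - u y‖) / 2 - 1)` of a real normed space `X`. -/
noncomputable def modulusOfSmoothness (X : Type) [NormedAddCommGroup X] [NormedSpace ℝ X]
    (u : ℝ) : ℝ :=
  sSup {r : ℝ | ∃ x y : X, ‖x‖ = 1 ∧ ‖y‖ = 1 ∧ r = (‖x + u • y‖ + ‖x - u • y‖) / 2 - 1}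

/-- `X` is uniformly smooth: `ρ(u) / u → 0` as `u → 0+`. -/
def UniformlySmooth (X : Type) [NormedAddCommGroup X] [NormedSpace ℝ X] : Prop :=
  Tendsto (fun u : ℝ => modulusOfSmoothness X u / u) (𝓝[>] 0) (𝓝 0)

/-- The modulus of smoothness has power type `q`: `ρ(u) ≤ γ u ^ q` for all `u > 0` and some
constant `γ`. -/
def SmoothOfPowerType (X : Type) [NormedAddCommGroup X] [NormedSpace ℝ X] (q : ℝ) : Prop :=
  ∃ γ : ℝ, ∀ u : ℝ, 0 < u → modulusOfSmoothness X u ≤ γ * u ^ q

variable {X : Type} [NormedAddCommGroup X] [NormedSpace ℝ X]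

/-- A dictionary: a symmetric subset of the closed unit ball with dense linear span. -/
structure IsDictionary (D : Set X) : Prop where
  norm_le_one : ∀ g ∈ D, ‖g‖ ≤ 1
  neg_mem : ∀ g ∈ D, -g ∈ D
  dense_span : Dense (Submodule.span ℝ D : Set X)

/-- `‖F‖_D = sup_{g ∈ D} F g` for a continuous linear functional `F`. -/
noncomputable def dictNorm (D : Set X) (F : X →L[ℝ] ℝ) : ℝ := sSup (F '' D)

/-- `X` is linearly homeomorphic to the (infinite-dimensional, separable) Hilbert space
`ℓ²(ℕ ⊕ ℕ)`; in other words, up to an isomorphism `X` is `ℓ²` with an equivalent norm. -/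
def IsomorphicToEll2 (X : Type) [NormedAddCommGroup X] [NormedSpace ℝ X] : Prop :=
  Nonempty (X ≃L[ℝ] lp (fun _ : ℕ ⊕ ℕ => ℝ) 2)

/-- `F` is a norming functional of `x`. -/
def IsNorming (F : X →L[ℝ] ℝ) (x : X) : Prop := ‖F‖ = 1 ∧ F x = ‖x‖

/-- `(f, φ, a)` is an admissible run of the weak dual greedy algorithm with weakness parameter
`t` and dictionary `D`, started at `f 0`. As long as `f m ≠ 0`: the element `φ m` lies in `D`,
every norming functional `F` of `f m` (there is exactly one in a uniformly smooth space) satisfies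
`F (φ m) ≥ t ‖F‖_D`, the number `a m` minimises `‖f m - b φ m‖` over all real `b`, and
`f (m + 1) = f m - a m φ m`. Once `f m = 0` the run stays at `0`. -/
structure IsWDGARun (t : ℝ) (D : Set X) (f φ : ℕ → X) (a : ℕ → ℝ) : Prop where
  mem : ∀ m, f m ≠ 0 → φ m ∈ D
  greedy : ∀ m, f m ≠ 0 → ∀ F : X →L[ℝ] ℝ, IsNorming F (f m) → t * dictNorm D F ≤ F (φ m)
  best : ∀ m, f m ≠ 0 → ∀ b : ℝ, ‖f m - a m • φ m‖ ≤ ‖f m - b • φ m‖
  step : ∀ m, f m ≠ 0 → f (m + 1) = f m - a m • φ m
  stop : ∀ m, f m = 0 → f (m + 1) = 0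

/-- The WDGA(`t`) with dictionary `D` converges for `f₀`: every admissible run started at `f₀`
tends to `0` in norm. -/
def WDGAConverges (t : ℝ) (D : Set X) (f₀ : X) : Prop :=
  ∀ (f φ : ℕ → X) (a : ℕ → ℝ), f 0 = f₀ → IsWDGARun t D f φ a →
    Tendsto (fun m => ‖f m‖) atTop (𝓝 0)

end Definitions

section Smooth

variable {X : Type} [NormedAddCommGroup X] [NormedSpace ℝ X] {C : ℝ}

lemma modulus_le (hC0 : 0 ≤ C)
    (hC : ∀ x y : X, ‖x + y‖ ^ 2 + ‖x - y‖ ^ 2 ≤ 2 * ‖x‖ ^ 2 + C * ‖y‖ ^ 2) {u : ℝ} (hu : 0 < u) :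
    modulusOfSmoothness X u ≤ C / 4 * u ^ 2 := by
  unfold modulusOfSmoothness
  refine Real.sSup_le ?_ (by positivity)
  rintro r ⟨x, y, hx, hy, rfl⟩
  have h1 := hC x (u • y)
  rw [norm_smul, hx, hy, Real.norm_eq_abs, abs_of_pos hu] at h1
  set s := ‖x + u • y‖ with hs
  set t := ‖x - u • y‖ with ht
  have hs0 : 0 ≤ s := norm_nonneg _
  have ht0 : 0 ≤ t := norm_nonneg _
  have h2 : ((s + t) / 2) ^ 2 ≤ 1 + C / 2 * u ^ 2 := by nlinarith [sq_nonneg (s - t)]
  have h3 : 1 + C / 2 * u ^ 2 ≤ (1 + C / 4 * u ^ 2) ^ 2 := by nlinarith [sq_nonneg (C / 4 * u ^ 2)]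
  have h4 : (s + t) / 2 ≤ 1 + C / 4 * u ^ 2 := by
    refine le_of_sq_le_sq (h2.trans h3) (by positivity)
  linarith

lemma modulus_nonneg (u : ℝ) : 0 ≤ modulusOfSmoothness X u := by
  unfold modulusOfSmoothness
  refine Real.sSup_nonneg ?_
  rintro r ⟨x, y, hx, hy, rfl⟩
  have h1 : ‖x + x‖ ≤ ‖x + u • y‖ + ‖x - u • y‖ := by
    have : x + x = (x + u • y) + (x - u • y) := by abel
    rw [this]
    exact norm_add_le _ _
  rw [← two_smul ℝ x, norm_smul, hx] at h1
  norm_num at h1
  linarith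

lemma uniformlySmooth (hC0 : 0 ≤ C)
    (hC : ∀ x y : X, ‖x + y‖ ^ 2 + ‖x - y‖ ^ 2 ≤ 2 * ‖x‖ ^ 2 + C * ‖y‖ ^ 2) :
    UniformlySmooth X := by
  unfold UniformlySmooth
  have hlim : Tendsto (fun u : ℝ => C / 4 * u) (𝓝[>] 0) (𝓝 0) := by
    have : Tendsto (fun u : ℝ => C / 4 * u) (𝓝 0) (𝓝 (C / 4 * 0)) :=
      (continuous_const.mul continuous_id).tendsto 0
    rw [mul_zero] at this
    exact this.mono_left nhdsWithin_le_nhds
  refine squeeze_zero' ?_ ?_ hlim
  · filter_upwards [self_mem_nhdsWithin] with u hu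
    exact div_nonneg (modulus_nonneg u) (le_of_lt hu)
  · filter_upwards [self_mem_nhdsWithin] with u hu
    have hu' : 0 < u := hu
    rw [div_le_iff₀ hu']
    have := modulus_le hC0 hC hu'
    nlinarith

lemma powerType (hC0 : 0 ≤ C)
    (hC : ∀ x y : X, ‖x + y‖ ^ 2 + ‖x - y‖ ^ 2 ≤ 2 * ‖x‖ ^ 2 + C * ‖y‖ ^ 2) :
    SmoothOfPowerType X 2 := by
  refine ⟨C / 4, fun u hu => ?_⟩
  rw [Real.rpow_two]
  exact modulus_le hC0 hC hu

end Smooth

/-- **Failure of convergence of the weak dual greedy algorithm.** There is a Banach space `X`,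
isomorphic to a Hilbert space, strictly convex, uniformly smooth, with modulus of smoothness of
power type `2`, a dictionary `D` of norm-one elements of `X` and an element `f₀ ∈ X` such that for
every `t ∈ (0, 1]` the WDGA(`t`) does not converge for `f₀`. -/
theorem result :
    ∃ (X : Type) (_ : NormedAddCommGroup X) (_ : NormedSpace ℝ X),
      CompleteSpace X ∧ IsomorphicToEll2 X ∧ StrictConvexSpace ℝ X ∧
      UniformlySmooth X ∧ SmoothOfPowerType X 2 ∧
      ∃ (D : Set X) (f₀ : X), IsDictionary D ∧ (∀ g ∈ D, ‖g‖ = 1) ∧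
        ∀ t ∈ Set.Ioc (0 : ℝ) 1, ¬ WDGAConverges t D f₀ := by
  obtain ⟨X, i1, i2, ⟨ec⟩, hsc, ⟨C, hC0, hC⟩, f, A, hA, hAf, horth, hf, hpos, hgr, hd, hd4,
    Z, hZ, hAZ, hdense⟩ := Helper57_DGA.main
  have hcomplete : CompleteSpace X :=
    (completeSpace_congr (e := ec.toEquiv) ec.isUniformEmbedding).2 inferInstance
  let φ : ℕ → X := fun n => ‖f n - f (n + 1)‖⁻¹ • (f n - f (n + 1))
  have hφ : ∀ n m, A n (φ m) = ‖f m - f (m + 1)‖⁻¹ * A n (f m - f (m + 1)) := fun n m => by
    simp only [φ, map_smul, smul_eq_mul]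
  have hφpos : ∀ n, 0 < A n (φ n) := fun n => by
    rw [hφ]; exact mul_pos (inv_pos.2 (hd n)) (hpos n)
  have hφmem : ∀ m, φ m ∈ Helper57_DGA.maxDict A φ := by
    intro m
    refine ⟨?_, fun n => ?_⟩
    · simp only [φ]
      rw [norm_smul, norm_inv, norm_norm, inv_mul_cancel₀ (hd m).ne']
    · rw [hφ, hφ, abs_mul, abs_of_pos (inv_pos.2 (hd m))]
      have h1 := hgr n m
      rw [inv_mul_le_iff₀ (hd m), ← mul_assoc, mul_comm (‖f m - f (m + 1)‖), mul_assoc,
        le_inv_mul_iff₀ (hd n)]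
      linarith
  have hdict : IsDictionary (Helper57_DGA.maxDict A φ) :=
    { norm_le_one := fun g hg => hg.1.le
      neg_mem := fun g hg => Helper57_DGA.maxDict_neg hg
      dense_span := by
        refine hdense.mono ?_
        have : Submodule.span ℝ {y : X | ∃ C : ℝ, ∀ n, |A n y| ≤ C * A n (f n - f (n + 1))} ≤
            Submodule.span ℝ (Helper57_DGA.maxDict A φ) := by
          rw [Submodule.span_le]
          rintro y ⟨K, hK⟩
          refine Helper57_DGA.maxDict_span (C := |K| * 4) (fun n => (hφpos n).le) hZ hAZ fun n => ?_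
          have h1 : A n (f n - f (n + 1)) ≤ 4 * A n (φ n) := by
            rw [hφ]
            have h2 : A n (f n - f (n + 1)) =
                ‖f n - f (n + 1)‖ * (‖f n - f (n + 1)‖⁻¹ * A n (f n - f (n + 1))) := by
              rw [← mul_assoc, mul_inv_cancel₀ (hd n).ne', one_mul]
            have h3 : 0 ≤ ‖f n - f (n + 1)‖⁻¹ * A n (f n - f (n + 1)) :=
              (mul_pos (inv_pos.2 (hd n)) (hpos n)).le
            calc A n (f n - f (n + 1)) =
                ‖f n - f (n + 1)‖ * (‖f n - f (n + 1)‖⁻¹ * A n (f n - f (n + 1))) := h2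
              _ ≤ 4 * (‖f n - f (n + 1)‖⁻¹ * A n (f n - f (n + 1))) :=
                mul_le_mul_of_nonneg_right (hd4 n) h3
          calc |A n y| ≤ K * A n (f n - f (n + 1)) := hK n
            _ ≤ |K| * A n (f n - f (n + 1)) :=
              mul_le_mul_of_nonneg_right (le_abs_self K) (hpos n).le
            _ ≤ |K| * (4 * A n (φ n)) := mul_le_mul_of_nonneg_left h1 (abs_nonneg K)
            _ = |K| * 4 * A n (φ n) := by ring
        exact this }
  refine ⟨X, i1, i2, hcomplete, ⟨ec⟩, hsc, uniformlySmooth hC0 hC, powerType hC0 hC,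
    Helper57_DGA.maxDict A φ, f 0, hdict, fun g hg => hg.1, fun t ht hconv => ?_⟩
  have hfne : ∀ m, f m ≠ 0 := fun m h => by
    have := hf m
    rw [h, norm_zero] at this
    norm_num at this
  have hstep : ∀ m, f (m + 1) = f m - ‖f m - f (m + 1)‖ • φ m := by
    intro m
    simp only [φ]
    rw [smul_smul, mul_inv_cancel₀ (hd m).ne', one_smul]
    abel
  have hrun : IsWDGARun t (Helper57_DGA.maxDict A φ) f φ (fun m => ‖f m - f (m + 1)‖) :=
    { mem := fun m _ => hφmem m
      greedy := by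
        intro m hm F hF
        have hFA : F = A m :=
          Helper57_DGA.norming_unique hC hm hF.1 hF.2 (hA m) (hAf m)
        subst hFA
        have h1 : dictNorm (Helper57_DGA.maxDict A φ) (A m) ≤ A m (φ m) := by
          refine csSup_le ⟨_, Set.mem_image_of_mem _ (hφmem 0)⟩ ?_
          rintro _ ⟨g, hg, rfl⟩
          exact (le_abs_self _).trans (hg.2 m)
        have h2 := hφpos m
        calc t * dictNorm (Helper57_DGA.maxDict A φ) (A m) ≤ t * A m (φ m) :=
              mul_le_mul_of_nonneg_left h1 ht.1.le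
          _ ≤ 1 * A m (φ m) := mul_le_mul_of_nonneg_right ht.2 h2.le
          _ = A m (φ m) := one_mul _
      best := by
        intro m hm b
        have h1 : A (m + 1) (φ m) = 0 := by
          rw [hφ, horth, mul_zero]
        exact Helper57_DGA.best_approx (hA (m + 1)) (hAf (m + 1)) h1 (hstep m) b
      step := fun m _ => hstep m
      stop := fun m hm => absurd hm (hfne m) }
  have hlim := hconv f φ _ rfl hrun
  have := ge_of_tendsto' hlim hf
  norm_num at this

end Pool.Agent.Results.MP_ecafc5_an.WDGADiverges
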